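import Mathlib
import Pool.Agent.H58.Sds2.Fin

set_option autoImplicit false

/-! # The number of values of `a i + a j + (j - i)`: the exponent is at least `22 / 29` -/

namespace Pool.Agent.Results.MP_15e61c_co.LowerBound

/-- For every `c < 22/29` and every sequence of `n` natural numbers at most `n ^ c` the number of
values `a i + a j + (j - i)`, `i < j`, is at least a constant times `n ^ c`. -/
theorem result : ∀ c : ℝ, 0 ≤ c → c < 22 / 29 →
    ∃ δ : ℝ, 0 < δ ∧ ∃ n₀ : ℕ, ∀ n : ℕ, n₀ ≤ n → ∀ a : Fin n → ℕ,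
      (∀ i, (a i : ℝ) ≤ (n : ℝ) ^ c) →
      δ * (n : ℝ) ^ c ≤
        (Set.ncard {v : ℤ | ∃ i j : Fin n, i < j ∧ v = a i + a j + ((j : ℤ) - i)} : ℝ) :=
  fun _ h0 h => Pool.Agent.H58.Sds2.low22 h0 h

end Pool.Agent.Results.MP_15e61c_co.LowerBound
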