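import Mathlib
import Pool.Agent.H66.Sds.Fin

set_option autoImplicit false

/-! # The number of values of `a i + a j + (j - i)`: the exponent is less than `0.8241` -/

namespace Pool.Agent.Results.MP_15e61c_co.UpperBound

/-- If `c` is larger than `log (1 + √2) / (2 log (1 + √2) - log 2) = 0.82402...` then there is no
constant `δ > 0` such that all sequences of `n` natural numbers at most `n ^ c`, `n` large, have at
least `δ n ^ c` values `a i + a j + (j - i)`, `i < j`. -/
theorem result : ∀ c : ℝ, Real.log (1 + √2) / (2 * Real.log (1 + √2) - Real.log 2) < c → c ≤ 1 →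
    ¬ ∃ δ : ℝ, 0 < δ ∧ ∃ n₀ : ℕ, ∀ n : ℕ, n₀ ≤ n → ∀ a : Fin n → ℕ,
      (∀ i, (a i : ℝ) ≤ (n : ℝ) ^ c) →
      δ * (n : ℝ) ^ c ≤
        (Set.ncard {v : ℤ | ∃ i j : Fin n, i < j ∧ v = a i + a j + ((j : ℤ) - i)} : ℝ) :=
  fun _ h h1 => Pool.Agent.H66.Sds.up h1 h

end Pool.Agent.Results.MP_15e61c_co.UpperBound
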